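import Mathlib

/-!
# MP_befaea_co : the largest square in an odd-dimensional unit cube

`f(2, 2n+1) = √((8n+1)/8)` for every `n ≥ 1`.
-/

namespace Pool.Agent.Results.MP_befaea_co.OddCubeSquare

/-- An `m`-dimensional cube of edge `s` (a congruent copy of `[0,s]^m` placed in some
`m`-dimensional affine subspace of `ℝ^n`, that is, the image of `[0,s]^m` under an affine
isometry `ℝ^m → ℝ^n`) is contained in the unit cube `[0,1]^n`. -/
def Inscribed (m n : ℕ) (s : ℝ) : Prop :=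
  0 ≤ s ∧ ∃ φ : EuclideanSpace ℝ (Fin m) →ᵃⁱ[ℝ] EuclideanSpace ℝ (Fin n),
    ∀ x : EuclideanSpace ℝ (Fin m), (∀ i, x i ∈ Set.Icc 0 s) → ∀ j, φ x j ∈ Set.Icc (0 : ℝ) 1

open Finset

/-- the key inequality -/
lemma key {a b : ℝ} (ha1 : 1 / 2 ≤ a) (ha2 : a ≤ 1) (hb1 : 1 / 2 ≤ b) (hb2 : b ≤ 1) :
    3 / 2 * (1 - a * b) ≤ (1 - a ^ 2) + (1 - b ^ 2) := by
  nlinarith [mul_nonneg (sub_nonneg.2 ha1) (sub_nonneg.2 ha2),
    mul_nonneg (sub_nonneg.2 hb1) (sub_nonneg.2 hb2),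
    mul_nonneg (sub_nonneg.2 ha1) (sub_nonneg.2 hb1),
    mul_nonneg (sub_nonneg.2 ha2) (sub_nonneg.2 hb2),
    mul_nonneg (sub_nonneg.2 ha1) (sub_nonneg.2 hb2),
    mul_nonneg (sub_nonneg.2 ha2) (sub_nonneg.2 hb1)]

/-- two orthogonal vectors in `[-1,1]^N`, `N` odd, cannot both be longer than `√(N - 3/4)` -/
lemma bound {N : ℕ} (hN : Odd N) (A B : Fin N → ℝ) (hA : ∀ j, |A j| ≤ 1) (hB : ∀ j, |B j| ≤ 1)
    (hAB : ∑ j, A j * B j = 0) (h1 : (N : ℝ) - 3 / 4 < ∑ j, A j ^ 2)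
    (h2 : (N : ℝ) - 3 / 4 < ∑ j, B j ^ 2) : False := by
  have hsumA : ∑ j, (1 - A j ^ 2) < 3 / 4 := by
    rw [Finset.sum_sub_distrib]; simp; linarith
  have hsumB : ∑ j, (1 - B j ^ 2) < 3 / 4 := by
    rw [Finset.sum_sub_distrib]; simp; linarith
  have hA2 : ∀ j, 0 ≤ 1 - A j ^ 2 := fun j => by
    have := hA j
    rw [← sq_abs]; nlinarith [abs_nonneg (A j)]
  have hB2 : ∀ j, 0 ≤ 1 - B j ^ 2 := fun j => by
    have := hB j
    rw [← sq_abs]; nlinarith [abs_nonneg (B j)]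
  have hA3 : ∀ j, 1 / 2 ≤ |A j| := fun j => by
    have h3 : 1 - A j ^ 2 ≤ ∑ j, (1 - A j ^ 2) :=
      Finset.single_le_sum (fun i _ => hA2 i) (Finset.mem_univ j)
    rw [← sq_abs] at h3
    by_contra hc
    push Not at hc
    nlinarith [abs_nonneg (A j)]
  have hB3 : ∀ j, 1 / 2 ≤ |B j| := fun j => by
    have h3 : 1 - B j ^ 2 ≤ ∑ j, (1 - B j ^ 2) :=
      Finset.single_le_sum (fun i _ => hB2 i) (Finset.mem_univ j)
    rw [← sq_abs] at h3
    by_contra hc
    push Not at hc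
    nlinarith [abs_nonneg (B j)]
  -- the signs
  let ε : Fin N → ℤ := fun j => if 0 ≤ A j * B j then 1 else -1
  have hε : ∀ j, A j * B j = ε j * (|A j| * |B j|) := fun j => by
    rw [← abs_mul]
    by_cases h : 0 ≤ A j * B j
    · simp [ε, h, abs_of_nonneg h]
    · simp only [ε, h, if_false]
      rw [abs_of_neg (not_le.1 h)]; push_cast; ring
  have hεabs : ∀ j, |(ε j : ℝ)| = 1 := fun j => by
    by_cases h : 0 ≤ A j * B j <;> simp [ε, h]
  have hodd : Odd (∑ j, ε j) := by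
    have h3 : ∀ j ∈ (Finset.univ : Finset (Fin N)), Odd (ε j) := fun j _ => by
      by_cases h : 0 ≤ A j * B j <;> simp [ε, h]
    have h4 : (∑ j, ε j) ≡ ∑ _j : Fin N, (1 : ℤ) [ZMOD 2] := by
      apply Int.ModEq.sum
      intro j hj
      obtain ⟨k, hk⟩ := h3 j hj
      rw [hk]
      show (2 * k + 1) % 2 = 1 % 2
      omega
    rw [Int.odd_iff]
    have h5 : (∑ _j : Fin N, (1 : ℤ)) = N := by simp
    rw [h5] at h4
    have h6 : ((N : ℕ) : ℤ) % 2 = 1 := by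
      obtain ⟨k, hk⟩ := hN
      omega
    rw [← h6]; exact h4
  have hge1 : (1 : ℝ) ≤ |((∑ j, ε j : ℤ) : ℝ)| := by
    have h3 : (∑ j, ε j) ≠ 0 := by
      intro h0
      rw [h0] at hodd
      exact absurd hodd (by decide)
    exact_mod_cast Int.one_le_abs h3
  have hsplit : ((∑ j, ε j : ℤ) : ℝ) = ∑ j, (ε j : ℝ) * (1 - |A j| * |B j|) := by
    have h3 : ∑ j, (ε j : ℝ) * (1 - |A j| * |B j|) =
        ∑ j, (ε j : ℝ) - ∑ j, A j * B j := by
      rw [← Finset.sum_sub_distrib]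
      apply Finset.sum_congr rfl
      intro j _
      rw [hε j]; ring
    rw [h3, hAB, sub_zero]; push_cast; rfl
  have hρ : ∀ j, 0 ≤ 1 - |A j| * |B j| := fun j => by
    have := hA j
    have := hB j
    nlinarith [abs_nonneg (A j), abs_nonneg (B j)]
  have hle : |((∑ j, ε j : ℤ) : ℝ)| ≤ ∑ j, (1 - |A j| * |B j|) := by
    rw [hsplit]
    refine (Finset.abs_sum_le_sum_abs _ _).trans (le_of_eq ?_)
    apply Finset.sum_congr rfl
    intro j _
    rw [abs_mul, hεabs, one_mul, abs_of_nonneg (hρ j)]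
  have hcost : 3 / 2 * ∑ j, (1 - |A j| * |B j|) ≤
      ∑ j, (1 - A j ^ 2) + ∑ j, (1 - B j ^ 2) := by
    rw [← Finset.sum_add_distrib, Finset.mul_sum]
    apply Finset.sum_le_sum
    intro j _
    have := key (hA3 j) (hA j) (hB3 j) (hB j)
    rw [sq_abs, sq_abs] at this
    exact this
  linarith

/-- upper bound -/
lemma upper {n : ℕ} {s : ℝ} (h : Inscribed 2 (2 * n + 1) s) : s ≤ √((8 * n + 1) / 8) := by
  obtain ⟨hs, φ, hφ⟩ := h
  apply Real.le_sqrt_of_sq_le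
  by_contra hc
  push Not at hc
  let pt : ℝ → ℝ → EuclideanSpace ℝ (Fin 2) := fun x y => !₂[x, y]
  have hmem : ∀ x y : ℝ, x ∈ Set.Icc 0 s → y ∈ Set.Icc 0 s →
      ∀ j, φ (pt x y) j ∈ Set.Icc (0 : ℝ) 1 := by
    intro x y hx hy
    apply hφ
    intro i
    fin_cases i
    · simpa [pt] using hx
    · simpa [pt] using hy
  have h0 : (0 : ℝ) ∈ Set.Icc 0 s := ⟨le_rfl, hs⟩
  have h1 : s ∈ Set.Icc 0 s := ⟨hs, le_rfl⟩
  have hdiff : ∀ x y : EuclideanSpace ℝ (Fin 2), φ x - φ y = φ.linearIsometry (x - y) := by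
    intro x y
    have := φ.map_vsub x y
    simpa using this.symm
  let A : Fin (2 * n + 1) → ℝ := fun j => φ (pt s s) j - φ (pt 0 0) j
  let B : Fin (2 * n + 1) → ℝ := fun j => φ (pt 0 s) j - φ (pt s 0) j
  have hA' : ∀ j, A j = (φ.linearIsometry (pt s s - pt 0 0)) j := fun j => by
    rw [← hdiff]; rfl
  have hB' : ∀ j, B j = (φ.linearIsometry (pt 0 s - pt s 0)) j := fun j => by
    rw [← hdiff]; rfl
  have hA : ∀ j, |A j| ≤ 1 := fun j => by
    obtain ⟨h2, h3⟩ := hmem s s h1 h1 j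
    obtain ⟨h4, h5⟩ := hmem 0 0 h0 h0 j
    rw [abs_le]; constructor <;> simp only [A] <;> linarith
  have hB : ∀ j, |B j| ≤ 1 := fun j => by
    obtain ⟨h2, h3⟩ := hmem 0 s h0 h1 j
    obtain ⟨h4, h5⟩ := hmem s 0 h1 h0 j
    rw [abs_le]; constructor <;> simp only [B] <;> linarith
  have hAB : ∑ j, A j * B j = 0 := by
    have h2 : inner ℝ (φ.linearIsometry (pt s s - pt 0 0)) (φ.linearIsometry (pt 0 s - pt s 0)) =
        (0 : ℝ) := by
      rw [LinearIsometry.inner_map_map]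
      simp [pt, PiLp.inner_apply, Fin.sum_univ_two]
    rw [PiLp.inner_apply] at h2
    rw [← h2]
    apply Finset.sum_congr rfl
    intro j _
    rw [hA', hB']
    simp [mul_comm]
  have hAA : ∑ j, A j ^ 2 = 2 * s ^ 2 := by
    have h2 : ‖φ.linearIsometry (pt s s - pt 0 0)‖ ^ 2 = 2 * s ^ 2 := by
      rw [LinearIsometry.norm_map, EuclideanSpace.norm_sq_eq]
      simp [pt, Fin.sum_univ_two]; ring
    rw [EuclideanSpace.norm_sq_eq] at h2
    rw [← h2]
    apply Finset.sum_congr rfl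
    intro j _
    rw [hA', Real.norm_eq_abs, sq_abs]
  have hBB : ∑ j, B j ^ 2 = 2 * s ^ 2 := by
    have h2 : ‖φ.linearIsometry (pt 0 s - pt s 0)‖ ^ 2 = 2 * s ^ 2 := by
      rw [LinearIsometry.norm_map, EuclideanSpace.norm_sq_eq]
      simp [pt, Fin.sum_univ_two]; ring
    rw [EuclideanSpace.norm_sq_eq] at h2
    rw [← h2]
    apply Finset.sum_congr rfl
    intro j _
    rw [hB', Real.norm_eq_abs, sq_abs]
  refine bound (N := 2 * n + 1) ⟨n, rfl⟩ A B hA hB hAB ?_ ?_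
  · rw [hAA]; push_cast; linarith
  · rw [hBB]; push_cast; linarith

/-- first diagonal -/
noncomputable def al (j : ℕ) : ℝ := if j = 2 then 1 / 2 else 1

/-- second diagonal -/
noncomputable def be (j : ℕ) : ℝ :=
  if j = 0 then 1 else if j = 1 then -1 / 2 else if j = 2 then -1 else if Odd j then 1 else -1

lemma abs_al (j : ℕ) : |al j| ≤ 1 := by
  unfold al; split_ifs <;> norm_num [abs_le]

lemma abs_be (j : ℕ) : |be j| ≤ 1 := by
  unfold be; split_ifs <;> norm_num [abs_le]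

lemma sums (n : ℕ) (hn : 1 ≤ n) :
    ∑ j ∈ range (2 * n + 1), al j * be j = 0 ∧
    ∑ j ∈ range (2 * n + 1), al j ^ 2 = 2 * n + 1 / 4 ∧
    ∑ j ∈ range (2 * n + 1), be j ^ 2 = 2 * n + 1 / 4 := by
  induction n, hn using Nat.le_induction with
  | base =>
    norm_num [Finset.sum_range_succ, al, be]
  | succ n hn ih =>
    obtain ⟨h1, h2, h3⟩ := ih
    have e : 2 * (n + 1) + 1 = (2 * n + 1) + 1 + 1 := by ring
    have a1 : al (2 * n + 1) = 1 := by
      unfold al; rw [if_neg (by omega)]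
    have a2 : al (2 * n + 1 + 1) = 1 := by
      unfold al; rw [if_neg (by omega)]
    have b1 : be (2 * n + 1) = 1 := by
      unfold be
      rw [if_neg (by omega), if_neg (by omega), if_neg (by omega), if_pos ⟨n, rfl⟩]
    have b2 : be (2 * n + 1 + 1) = -1 := by
      unfold be
      rw [if_neg (by omega), if_neg (by omega), if_neg (by omega), if_neg]
      rw [Nat.not_odd_iff_even]
      exact ⟨n + 1, by ring⟩
    rw [e]
    refine ⟨?_, ?_, ?_⟩
    · rw [Finset.sum_range_succ, Finset.sum_range_succ, h1, a1, a2, b1, b2]; norm_num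
    · rw [Finset.sum_range_succ, Finset.sum_range_succ, h2, a1, a2]; push_cast; ring
    · rw [Finset.sum_range_succ, Finset.sum_range_succ, h3, b1, b2]; push_cast; ring

/-- the linear part of the embedding -/
noncomputable def Lmap (N : ℕ) (s : ℝ) :
    EuclideanSpace ℝ (Fin 2) →ₗ[ℝ] EuclideanSpace ℝ (Fin N) where
  toFun x := WithLp.toLp 2 fun j : Fin N =>
    x 0 * ((al j - be j) / (2 * s)) + x 1 * ((al j + be j) / (2 * s))
  map_add' x y := by
    ext j; simp; ring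
  map_smul' c x := by
    ext j; simp; ring

lemma Lmap_norm {n : ℕ} (hn : 1 ≤ n) {s : ℝ} (hs : 0 < s) (hs2 : s ^ 2 = n + 1 / 8)
    (x : EuclideanSpace ℝ (Fin 2)) : ‖Lmap (2 * n + 1) s x‖ = ‖x‖ := by
  obtain ⟨h1, h2, h3⟩ := sums n hn
  have h : ‖Lmap (2 * n + 1) s x‖ ^ 2 = ‖x‖ ^ 2 := by
    rw [EuclideanSpace.norm_sq_eq, EuclideanSpace.norm_sq_eq, Fin.sum_univ_two]
    simp only [Real.norm_eq_abs, sq_abs]
    have e : ∀ j : Fin (2 * n + 1), (Lmap (2 * n + 1) s x) j ^ 2 =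
        ((x 0 + x 1) ^ 2 * al j ^ 2 + (x 1 - x 0) ^ 2 * be j ^ 2 +
          2 * (x 1 ^ 2 - x 0 ^ 2) * (al j * be j)) / (4 * s ^ 2) := by
      intro j
      show (x 0 * ((al j - be j) / (2 * s)) + x 1 * ((al j + be j) / (2 * s))) ^ 2 = _
      field_simp
      ring
    rw [Finset.sum_congr rfl (fun j _ => e j), ← Finset.sum_div, Finset.sum_add_distrib,
      Finset.sum_add_distrib, ← Finset.mul_sum, ← Finset.mul_sum, ← Finset.mul_sum]
    rw [Fin.sum_univ_eq_sum_range (fun j => al j ^ 2), Fin.sum_univ_eq_sum_range (fun j => be j ^ 2),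
      Fin.sum_univ_eq_sum_range (fun j => al j * be j), h1, h2, h3, hs2]
    have h4 : (n : ℝ) + 1 / 8 ≠ 0 := by positivity
    field_simp
    ring
  have h5 := (sq_eq_sq₀ (norm_nonneg _) (norm_nonneg _)).1 h
  exact h5

/-- lower bound -/
lemma lower {n : ℕ} (hn : 1 ≤ n) : Inscribed 2 (2 * n + 1) (√((8 * n + 1) / 8)) := by
  set s : ℝ := √((8 * n + 1) / 8) with hs
  have hs0 : 0 < s := Real.sqrt_pos.2 (by positivity)
  have hs2 : s ^ 2 = n + 1 / 8 := by
    rw [hs, Real.sq_sqrt (by positivity)]; ring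
  refine ⟨hs0.le, ?_⟩
  let L : EuclideanSpace ℝ (Fin 2) →ₗᵢ[ℝ] EuclideanSpace ℝ (Fin (2 * n + 1)) :=
    ⟨Lmap (2 * n + 1) s, Lmap_norm hn hs0 hs2⟩
  let p : EuclideanSpace ℝ (Fin (2 * n + 1)) :=
    WithLp.toLp 2 fun j : Fin (2 * n + 1) => 1 / 2 - al j / 2
  refine ⟨(AffineIsometryEquiv.vaddConst ℝ p).toAffineIsometry.comp L.toAffineIsometry, ?_⟩
  intro x hx j
  have e : ((AffineIsometryEquiv.vaddConst ℝ p).toAffineIsometry.comp L.toAffineIsometry) x j =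
      x 0 * ((al j - be j) / (2 * s)) + x 1 * ((al j + be j) / (2 * s)) + (1 / 2 - al j / 2) := by
    rfl
  rw [e]
  obtain ⟨hx1, hx2⟩ := hx 0
  obtain ⟨hy1, hy2⟩ := hx 1
  set t := x 0 / s with ht
  set r := x 1 / s with hr
  have ht0 : 0 ≤ t := div_nonneg hx1 hs0.le
  have ht1 : 0 ≤ 1 - t := by
    rw [ht, sub_nonneg, div_le_one hs0]; exact hx2
  have hr0 : 0 ≤ r := div_nonneg hy1 hs0.le
  have hr1 : 0 ≤ 1 - r := by
    rw [hr, sub_nonneg, div_le_one hs0]; exact hy2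
  have e2 : x 0 * ((al j - be j) / (2 * s)) + x 1 * ((al j + be j) / (2 * s)) +
      (1 / 2 - al j / 2) = 1 / 2 + ((1 - t) * (1 - r) * (- al j) + t * (1 - r) * (- be j) +
        (1 - t) * r * be j + t * r * al j) / 2 := by
    have e3 : x 0 = t * s := by rw [ht]; field_simp
    have e4 : x 1 = r * s := by rw [hr]; field_simp
    rw [e3, e4]
    field_simp
    ring
  rw [e2]
  obtain ⟨ha1, ha2⟩ := abs_le.1 (abs_al j)
  obtain ⟨hb1, hb2⟩ := abs_le.1 (abs_be j)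
  have w1 := mul_nonneg ht1 hr1
  have w2 := mul_nonneg ht0 hr1
  have w3 := mul_nonneg ht1 hr0
  have w4 := mul_nonneg ht0 hr0
  have hsum : (1 - t) * (1 - r) + t * (1 - r) + (1 - t) * r + t * r = 1 := by ring
  constructor
  · nlinarith [mul_nonneg w1 (sub_nonneg.2 ha2), mul_nonneg w2 (sub_nonneg.2 hb2),
      mul_nonneg w3 (by linarith : 0 ≤ be j + 1), mul_nonneg w4 (by linarith : 0 ≤ al j + 1)]
  · nlinarith [mul_nonneg w1 (by linarith : 0 ≤ al j + 1), mul_nonneg w2 (by linarith : 0 ≤ be j + 1),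
      mul_nonneg w3 (sub_nonneg.2 hb2), mul_nonneg w4 (sub_nonneg.2 ha2)]

/-- For every `n ≥ 1` the largest edge of a square contained in the unit cube `[0,1]^(2n+1)` is
`√((8n+1)/8)`. -/
theorem result : ∀ n : ℕ, 1 ≤ n →
    IsGreatest {s : ℝ | Inscribed 2 (2 * n + 1) s} (√((8 * n + 1) / 8)) :=
  fun _n hn => ⟨lower hn, fun _s hs => upper hs⟩

end Pool.Agent.Results.MP_befaea_co.OddCubeSquare
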